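import Pool.Agent.H41.CO.Defs

/-!
# Every permutation is the sum of two permutations with at most one nontrivial cycle (S_TWO)
-/

set_option autoImplicit false

namespace Pool.Agent.H801.CO

open Equiv Equiv.Perm Pool.Agent.H41.CO

/-- the product of two cycles with exactly one common point is a cycle -/
theorem glue {V : Type} [Finite V] (f g : Perm V) (hf : f.IsCycle) (hg : g.IsCycle) (x : V)
    (hfx : f x ≠ x) (hgx : g x ≠ x) (h : ∀ y, f y ≠ y → g y ≠ y → y = x) : (f * g).IsCycle := by
  have h1 : ∀ y, g y ≠ y → g y ≠ x → (f * g) y = g y := by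
    intro y hy hyx
    have h2 : g (g y) ≠ g y := fun h3 => hy (g.injective h3)
    rw [Perm.mul_apply]
    by_contra h3
    exact hyx (h (g y) h3 h2)
  have h2 : ∀ y, f y ≠ y → y ≠ x → (f * g) y = f y := by
    intro y hy hyx
    have h3 : g y = y := by
      by_contra h4
      exact hyx (h y hy h4)
    rw [Perm.mul_apply, h3]
  have hp : ∀ (p : Perm V), p x ≠ x → ∀ k : ℕ, p ((p ^ k) x) ≠ (p ^ k) x := by
    intro p hpx k h3
    rw [← Perm.mul_apply, ← pow_succ', pow_succ, Perm.mul_apply] at h3
    exact hpx ((p ^ k).injective h3)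
  have hG : ∀ k : ℕ, (f * g).SameCycle x ((g ^ k) x) := by
    intro k
    induction k with
    | zero => exact SameCycle.refl _ _
    | succ k ih =>
      rw [pow_succ', Perm.mul_apply]
      by_cases h4 : g ((g ^ k) x) = x
      · rw [h4]
      · rw [← h1 _ (hp g hgx k) h4]
        exact sameCycle_apply_right.2 ih
  have hF : ∀ k : ℕ, (f * g).SameCycle x ((f ^ k) x) := by
    intro k
    induction k with
    | zero => exact SameCycle.refl _ _
    | succ k ih =>
      rw [pow_succ', Perm.mul_apply]
      by_cases h4 : (f ^ k) x = x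
      · rw [h4]
        have h5 : g (g.symm x) = x := g.apply_symm_apply x
        have h6 : g (g.symm x) ≠ g.symm x := by
          intro h7
          rw [h5] at h7
          exact hgx (by rw [h7, h5, ← h7])
        obtain ⟨i, hi⟩ := hg.exists_pow_eq hgx h6
        have h8 := hG i
        rw [hi] at h8
        have h9 : (f * g) (g.symm x) = f x := by rw [Perm.mul_apply, h5]
        rw [← h9]
        exact sameCycle_apply_right.2 h8
      · rw [← h2 _ (hp f hfx k) h4]
        exact sameCycle_apply_right.2 ih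
  refine ⟨x, ?_, fun y hy => ?_⟩
  · rw [h1 x hgx hgx]
    exact hgx
  · by_cases h3 : g y = y
    · have h4 : f y ≠ y := by
        intro h5
        exact hy (by rw [Perm.mul_apply, h3, h5])
      obtain ⟨i, hi⟩ := hf.exists_pow_eq hfx h4
      rw [← hi]
      exact hF i
    · obtain ⟨i, hi⟩ := hg.exists_pow_eq hgx h3
      rw [← hi]
      exact hG i

theorem oneCyc_of {V : Type} {σ : Perm V} (h : σ.IsCycle) : OneCyc σ :=
  fun _ _ hx hy => h.sameCycle hx hy

theorem two_add (a b : ZMod 2) : a + b + (a + b) = 0 := CharTwo.add_self_eq_zero _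

theorem arc_disj {V : Type} [DecidableEq V] (f g : Perm V) (h : ∀ x, f x = x ∨ g x = x) (u v : V)
    (huv : u ≠ v) : (if (f * g) u = v then (1 : ZMod 2) else 0) =
      (if f u = v then 1 else 0) + (if g u = v then 1 else 0) := by
  rw [Perm.mul_apply]
  by_cases h1 : g u = u
  · rw [h1, if_neg (show ¬ u = v from huv), add_zero]
  · have h2 : g (g u) ≠ g u := fun h3 => h1 (g.injective h3)
    have h3 : f (g u) = g u := (h (g u)).resolve_right h2
    have h4 : f u = u := (h u).resolve_right h1
    rw [h3, h4, if_neg (show ¬ u = v from huv), zero_add]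

theorem vec_disj {V : Type} [DecidableEq V] (f g : Perm V) (h : ∀ x, f x = x ∨ g x = x) (u v : V)
    (huv : u ≠ v) : vec (f * g) u v = vec f u v + vec g u v := by
  unfold vec
  rw [arc_disj f g h u v huv, arc_disj f g h v u huv.symm]
  ring

/-- what is proved by induction -/
def Good {V : Type} [DecidableEq V] (τ : Perm V) : Prop :=
  ∃ σ π : Perm V, OneCyc σ ∧ OneCyc π ∧ (∀ x, τ x = x → σ x = x ∧ π x = x) ∧
    (τ ≠ 1 → σ.IsCycle ∧ π.IsCycle ∧ ∃ z, σ z ≠ z ∧ π z = σ z) ∧
    ∀ u v, u ≠ v → vec τ u v = vec σ u v + vec π u v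

theorem good_one {V : Type} [DecidableEq V] : Good (1 : Perm V) := by
  refine ⟨1, 1, fun x _ hx => absurd rfl hx, fun x _ hx => absurd rfl hx, fun x _ => ⟨rfl, rfl⟩,
    fun h => absurd rfl h, fun u v huv => ?_⟩
  unfold vec
  simp [huv, huv.symm]

theorem good_cycle {V : Type} [DecidableEq V] (τ : Perm V) (h : τ.IsCycle) : Good τ := by
  obtain ⟨z, hz, -⟩ := id h
  refine ⟨τ, swap z (τ z), oneCyc_of h, oneCyc_of (isCycle_swap hz.symm), fun x hx => ⟨hx, ?_⟩,
    fun _ => ⟨h, isCycle_swap hz.symm, z, hz, swap_apply_left _ _⟩, fun u v huv => ?_⟩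
  · refine swap_apply_of_ne_of_ne ?_ ?_
    · rintro rfl
      exact hz hx
    · rintro rfl
      exact hz (τ.injective hx)
  · have h1 : vec (swap z (τ z)) u v = 0 := by
      unfold vec
      have h2 : (swap z (τ z) v = u) ↔ (swap z (τ z) u = v) := by
        rw [← Equiv.eq_symm_apply, symm_swap, eq_comm]
      simp only [h2]
      exact CharTwo.add_self_eq_zero _
    rw [h1, add_zero]

theorem good_mul {V : Type} [Finite V] [DecidableEq V] (κ τ : Perm V) (hd : Perm.Disjoint κ τ)
    (hκ : κ.IsCycle) (hτ : Good τ) : Good (κ * τ) := by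
  by_cases h1 : τ = 1
  · rw [h1, mul_one]
    exact good_cycle κ hκ
  obtain ⟨σ, π, -, -, hfix, hc, hvec⟩ := hτ
  obtain ⟨hσ, hπ, z, hz, hzπ⟩ := hc h1
  obtain ⟨w, hw, -⟩ := id hκ
  have hdσ : ∀ x, κ x ≠ x → σ x = x ∧ π x = x := fun x hx => hfix x ((hd x).resolve_left hx)
  have hzκ : κ z = z := by
    by_contra h2
    exact hz (hdσ z h2).1
  have hwσ := hdσ w hw
  have hw2 : κ (κ w) ≠ κ w := fun h2 => hw (κ.injective h2)
  have hwσ2 := hdσ (κ w) hw2
  have hzw : z ≠ w := by
    rintro rfl
    exact hw hzκ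
  have hzw2 : z ≠ κ w := by
    rintro h2
    rw [← h2] at hw2
    exact hw2 hzκ
  have hπz : π z ≠ z := by
    rw [hzπ]
    exact hz
  have hez : σ z ≠ w := by
    intro h2
    have h3 := hwσ.1
    rw [← h2] at h3
    exact hz (σ.injective h3)
  have hez2 : σ z ≠ κ w := by
    intro h2
    have h3 := hwσ2.1
    rw [← h2] at h3
    exact hz (σ.injective h3)
  -- the new permutations
  have hA : (κ * swap z w).IsCycle := by
    refine glue κ (swap z w) hκ (isCycle_swap hzw) w hw ?_ fun y hy hy2 => ?_
    · rw [swap_apply_right]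
      exact hzw
    · by_contra h2
      exact hy2 (swap_apply_of_ne_of_ne (fun h3 => hy (by rw [h3]; exact hzκ)) h2)
  have hB : (σ * (κ * swap z w)).IsCycle := by
    refine glue σ _ hσ hA z hz ?_ fun y hy hy2 => ?_
    · rw [Perm.mul_apply, swap_apply_left]
      exact hzw2.symm
    · by_contra h2
      have h3 : κ y = y := by
        by_contra h4
        exact hy (hdσ y h4).1
      have h4 : y ≠ w := by
        rintro rfl
        exact hw h3
      exact hy2 (by rw [Perm.mul_apply, swap_apply_of_ne_of_ne h2 h4, h3])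
  have hC : (swap (κ w) w * swap z w).IsCycle := by
    refine glue _ _ (isCycle_swap hw) (isCycle_swap hzw) w ?_ ?_ fun y hy hy2 => ?_
    · rw [swap_apply_right]
      exact hw
    · rw [swap_apply_right]
      exact hzw
    · by_contra h2
      have h3 : y = κ w := by
        by_contra h4
        exact hy (swap_apply_of_ne_of_ne h4 h2)
      exact hy2 (swap_apply_of_ne_of_ne (fun h4 => hzw2 (h4.symm.trans h3)) h2)
  have hD : (π * (swap (κ w) w * swap z w)).IsCycle := by
    refine glue π _ hπ hC z hπz ?_ fun y hy hy2 => ?_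
    · rw [Perm.mul_apply, swap_apply_left, swap_apply_right]
      exact hzw2.symm
    · by_contra h2
      have h3 : y ≠ w := by
        rintro rfl
        exact hy hwσ.2
      have h4 : y ≠ κ w := by
        rintro rfl
        exact hy hwσ2.2
      exact hy2 (by rw [Perm.mul_apply, swap_apply_of_ne_of_ne h2 h3, swap_apply_of_ne_of_ne h4 h3])
  -- values
  have s1 : (σ * (κ * swap z w)) z = κ w := by
    rw [Perm.mul_apply, Perm.mul_apply, swap_apply_left, hwσ2.1]
  have s2 : (σ * (κ * swap z w)) w = σ z := by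
    rw [Perm.mul_apply, Perm.mul_apply, swap_apply_right, hzκ]
  have s3 : ∀ y, y ≠ z → y ≠ w → (σ * (κ * swap z w)) y = (σ * κ) y := by
    intro y h2 h3
    rw [Perm.mul_apply, Perm.mul_apply, swap_apply_of_ne_of_ne h2 h3, Perm.mul_apply]
  have p1 : (π * (swap (κ w) w * swap z w)) z = κ w := by
    rw [Perm.mul_apply, Perm.mul_apply, swap_apply_left, swap_apply_right, hwσ2.2]
  have p2 : (π * (swap (κ w) w * swap z w)) w = σ z := by
    rw [Perm.mul_apply, Perm.mul_apply, swap_apply_right, swap_apply_of_ne_of_ne hzw2 hzw, hzπ]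
  have p3 : (π * (swap (κ w) w * swap z w)) (κ w) = w := by
    rw [Perm.mul_apply, Perm.mul_apply, swap_apply_of_ne_of_ne hzw2.symm hw, swap_apply_left, hwσ.2]
  have p4 : ∀ y, y ≠ z → y ≠ w → y ≠ κ w → (π * (swap (κ w) w * swap z w)) y = π y := by
    intro y h2 h3 h4
    rw [Perm.mul_apply, Perm.mul_apply, swap_apply_of_ne_of_ne h2 h3, swap_apply_of_ne_of_ne h4 h3]
  have k1 : (σ * κ) z = σ z := by rw [Perm.mul_apply, hzκ]
  have k2 : (σ * κ) w = κ w := by rw [Perm.mul_apply, hwσ2.1]
  refine ⟨σ * (κ * swap z w), π * (swap (κ w) w * swap z w), oneCyc_of hB, oneCyc_of hD, ?_,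
    fun _ => ⟨hB, hD, w, ?_, ?_⟩, ?_⟩
  · intro x hx
    have h2 : κ x = x ∧ τ x = x := by
      rcases hd x with h3 | h3
      · refine ⟨h3, ?_⟩
        by_contra h4
        have h5 : κ (τ x) = τ x := (hd (τ x)).resolve_right fun h6 => h4 (τ.injective h6)
        rw [Perm.mul_apply, h5] at hx
        exact h4 hx
      · rw [Perm.mul_apply, h3] at hx
        exact ⟨hx, h3⟩
    have h3 := hfix x h2.2
    have h4 : x ≠ z := by
      rintro rfl
      exact hz h3.1
    have h5 : x ≠ w := by
      rintro rfl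
      exact hw h2.1
    have h6 : x ≠ κ w := by
      rintro rfl
      exact hw2 h2.1
    refine ⟨?_, ?_⟩
    · rw [s3 x h4 h5, Perm.mul_apply, h2.1, h3.1]
    · rw [p4 x h4 h5 h6, h3.2]
  · rw [s2]
    exact hez
  · rw [s2, p2]
  · intro u v huv
    have e1 : vec (κ * τ) u v = vec κ u v + vec τ u v := vec_disj κ τ hd u v huv
    have e2 : vec (σ * κ) u v = vec σ u v + vec κ u v := by
      refine vec_disj σ κ (fun x => ?_) u v huv
      by_cases h2 : κ x = x
      · exact Or.inr h2
      · exact Or.inl (hdσ x h2).1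
    have key : ∀ a b : V, a ≠ b →
        (if (σ * (κ * swap z w)) a = b then (1 : ZMod 2) else 0) +
          (if (π * (swap (κ w) w * swap z w)) a = b then 1 else 0) =
        (if (σ * κ) a = b then 1 else 0) + (if π a = b then 1 else 0) +
          ((if a = w ∧ κ w = b then 1 else 0) + (if a = κ w ∧ w = b then 1 else 0)) := by
      intro a b hab
      by_cases ha : a = z
      · have n1 : ¬ (a = w ∧ κ w = b) := fun h2 => hzw (ha.symm.trans h2.1)
        have n2 : ¬ (a = κ w ∧ w = b) := fun h2 => hzw2 (ha.symm.trans h2.1)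
        rw [if_neg n1, if_neg n2, ha, s1, p1, k1, hzπ, add_zero, add_zero, CharTwo.add_self_eq_zero,
          CharTwo.add_self_eq_zero]
      by_cases ha2 : a = w
      · have n1 : (a = w ∧ κ w = b) ↔ κ w = b := ⟨fun h2 => h2.2, fun h2 => ⟨ha2, h2⟩⟩
        have n2 : ¬ (a = κ w ∧ w = b) := fun h2 => hw (h2.1.symm.trans ha2)
        have n3 : ¬ w = b := fun h2 => hab (ha2.trans h2)
        simp only [n1]
        rw [if_neg n2, ha2, s2, p2, k2, hwσ.2, if_neg n3, CharTwo.add_self_eq_zero, add_zero,
          CharTwo.add_self_eq_zero]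
      by_cases ha3 : a = κ w
      · have n1 : ¬ (a = w ∧ κ w = b) := fun h2 => ha2 h2.1
        have n2 : (a = κ w ∧ w = b) ↔ w = b := ⟨fun h2 => h2.2, fun h2 => ⟨ha3, h2⟩⟩
        have n3 : ¬ κ w = b := fun h2 => hab (ha3.trans h2)
        simp only [n2]
        rw [if_neg n1, s3 a ha ha2, ha3, p3, hwσ2.2, if_neg n3, zero_add, add_zero]
      · have n1 : ¬ (a = w ∧ κ w = b) := fun h2 => ha2 h2.1
        have n2 : ¬ (a = κ w ∧ w = b) := fun h2 => ha3 h2.1
        rw [if_neg n1, if_neg n2, s3 a ha ha2, p4 a ha ha2 ha3, add_zero, add_zero]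
    have hk1 := key u v huv
    have hk2 := key v u huv.symm
    have h3 : ∀ a b : V, (if a = κ w ∧ w = b then (1 : ZMod 2) else 0) =
        if b = w ∧ κ w = a then 1 else 0 := by
      intro a b
      congr 1
      exact propext ⟨fun h => ⟨h.2.symm, h.1.symm⟩, fun h => ⟨h.2.symm, h.1.symm⟩⟩
    rw [h3] at hk1 hk2
    have h4 : vec (σ * (κ * swap z w)) u v + vec (π * (swap (κ w) w * swap z w)) u v =
        vec (σ * κ) u v + vec π u v := by
      unfold vec
      generalize (if (σ * (κ * swap z w)) u = v then (1 : ZMod 2) else 0) = a1 at *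
      generalize (if (σ * (κ * swap z w)) v = u then (1 : ZMod 2) else 0) = a2 at *
      generalize (if (π * (swap (κ w) w * swap z w)) u = v then (1 : ZMod 2) else 0) = a3 at *
      generalize (if (π * (swap (κ w) w * swap z w)) v = u then (1 : ZMod 2) else 0) = a4 at *
      generalize (if (σ * κ) u = v then (1 : ZMod 2) else 0) = a5 at *
      generalize (if (σ * κ) v = u then (1 : ZMod 2) else 0) = a6 at *
      generalize (if π u = v then (1 : ZMod 2) else 0) = a7 at *
      generalize (if π v = u then (1 : ZMod 2) else 0) = a8 at *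
      generalize (if u = w ∧ κ w = v then (1 : ZMod 2) else 0) = a9 at *
      generalize (if v = w ∧ κ w = u then (1 : ZMod 2) else 0) = a10 at *
      have h5 : a9 + a9 = 0 := CharTwo.add_self_eq_zero _
      have h6 : a10 + a10 = 0 := CharTwo.add_self_eq_zero _
      linear_combination hk1 + hk2 + h5 + h6
    rw [h4, e1, e2, hvec u v huv]
    have h5 : vec κ u v + vec κ u v = 0 := CharTwo.add_self_eq_zero _
    ring

theorem two : S_TWO := by
  intro V _ _ τ
  have h : Good τ := by
    refine cycle_induction_on (P := Good) τ good_one (fun σ hσ => good_cycle σ hσ) ?_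
    intro κ τ hd hκ _ hτ
    exact good_mul κ τ hd hκ hτ
  obtain ⟨σ, π, h1, h2, -, -, h3⟩ := h
  exact ⟨σ, π, h1, h2, h3⟩

end Pool.Agent.H801.CO
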